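import Mathlib
import Pool.Agent.H402V4.Extra

/-! Bounded enstrophy gives bounded velocity for the projected system. -/

set_option autoImplicit false

open Set MeasureTheory Filter Topology Finset
open scoped RealInnerProductSpace ContDiff

namespace Pool.Agent.H280R3.D5

open Pool.Agent.H402V4

section

variable {φ ρ ψ : V → V} {x₁ : V} {ν T lam R : ℝ}

/-- decay of the coefficients once the strain is dominated by the viscosity in small scales -/
theorem decayW (G : Good φ ρ ψ x₁ ν T lam R) (n₀ : ℕ) :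
    ∃ A : ℝ, 0 < A ∧ ∀ T' u, 0 ≤ T' → T' ≤ T →
      GSol ν (Fam φ ψ ρ (MM lam) (EE lam)) (u00 φ ψ ρ lam (dd φ lam)) T' u →
      (∀ n ≥ n₀, ∀ t ∈ Icc 0 T', W (gg (-hf φ φ / ip φ φ) lam)
        (fun n t => af φ (MM lam) (u t) n) n t ≤ muu (ν * dir φ φ / ip φ φ) lam n) →
      ∀ t ∈ Icc 0 T', ∀ k, |co φ ψ ρ lam (u t) k| ≤ A := by
  have hF := φ_pos G.P
  have hq : 0 < -hf φ φ := by linarith [G.P.q_pos]
  have hβ : 0 < -hf ρ ρ := by linarith [G.P.β_pos]
  have hA := dir_φ_pos G.P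
  have hν := G.ν_pos
  set Cη := Ceta (-hf φ φ / ip φ φ) R (9 * -hf ρ ρ / (4 * ip φ φ)) (9 * -hf ρ ρ / (4 * -hf φ φ))
    with hCη
  have hR := G.R_ge
  have hCη0 : 0 ≤ Cη := by rw [hCη]; unfold Ceta; positivity
  set K5 := ∑' n, MM lam n ^ 5 * bb lam n with hK5
  have hK50 : 0 ≤ K5 := tsum_nonneg fun n => by
    have := MM_pos lam n; have := bb_pos lam n; positivity
  have hK5' : ∀ n, MM lam n ^ 5 * bb lam n ≤ K5 := fun n =>
    (bb_summable G.one 5).le_tsum n (fun j _ => by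
      have := MM_pos lam j; have := bb_pos lam j; positivity)
  set X := 4 * Cη * K5 with hX
  have hX0 : 0 ≤ X := by positivity
  set N := n₀ + 1 with hN
  have hbN := bb_pos lam N
  refine ⟨Real.sqrt X + R / bb lam N + 3 / 2, by positivity, fun T' u hT'0 hT' hu hvel t ht k => ?_⟩
  have hsh := G.shell T' u hT'0 hT' hu
  have hs0 := Real.sqrt_nonneg X
  have hRb : 0 ≤ R / bb lam N := by positivity
  cases k with
  | zero =>
    -- the pump
    have h1 := hsh.κ_hi 0 t ht
    unfold kk at h1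
    have hE := EE_pos lam 0
    have h2 : cf ψ ρ (MM lam) (EE lam) (u t) ^ 2 ≤ 9 / 4 := by
      have h3 : (-hf ρ ρ / -hf φ φ * EE lam 0) * cf ψ ρ (MM lam) (EE lam) (u t) ^ 2
          ≤ (-hf ρ ρ / -hf φ φ * EE lam 0) * (9 / 4) := by
        calc _ = -hf ρ ρ / -hf φ φ * (cf ψ ρ (MM lam) (EE lam) (u t) ^ 2 * EE lam 0) := by ring
          _ ≤ _ := h1
          _ = _ := by
            generalize -hf φ φ = q at hq ⊢
            field_simp
      exact le_of_mul_le_mul_left h3 (by positivity)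
    have h3 : |cf ψ ρ (MM lam) (EE lam) (u t)| ≤ 3 / 2 := by
      refine abs_le.mpr (abs_le_of_sq_le_sq' ?_ (by norm_num))
      linarith
    show |cf ψ ρ (MM lam) (EE lam) (u t)| ≤ _
    linarith
  | succ n =>
    have hbn := bb_pos lam n
    show |af φ (MM lam) (u t) n / bb lam n| ≤ _
    rw [abs_div, abs_of_pos hbn, div_le_iff₀ hbn]
    rcases Nat.lt_or_ge n (N + 1) with hn | hn
    · have h1 := hsh.a_bdd n t ht
      have h2 : bb lam N ≤ bb lam n := bb_anti (by linarith [G.one]) (by omega)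
      have h3 : R ≤ R / bb lam N * bb lam n := by
        rw [div_mul_eq_mul_div, le_div_iff₀ hbN]
        exact mul_le_mul_of_nonneg_left h2 (by linarith)
      have h4 : 0 ≤ (Real.sqrt X + 3 / 2) * bb lam n := by positivity
      calc |af φ (MM lam) (u t) n| ≤ R := h1
        _ ≤ R / bb lam N * bb lam n := h3
        _ ≤ _ := by linarith
    · obtain ⟨m, rfl⟩ : ∃ m, n = m + 1 := ⟨n - 1, by omega⟩
      have h1 := hsh.tail4 (n := m) (fun l hl => by
          show af φ (MM lam) (u 0) l = 0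
          rw [G.u0_af hu, if_neg (by omega), if_neg (by omega)]) (G.par.hη m) (G.par.hη' m)
          (fun t ht => hvel (m + 1) (by omega) t ht)
          (fun l hl => by
            unfold muu
            refine mul_le_mul_of_nonneg_left (Real.exp_le_exp.mpr ?_) (by positivity)
            have := LL_mono (by linarith [G.one] : (0 : ℝ) ≤ lam) hl
            linarith) ht
      have h2 := hsh.rec_e m t ht
      have h3 := hsh.κ_nonneg (m + 1) t ht
      have h4 := hsh.e_nonneg (m + 1) t ht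
      have h5 : af φ (MM lam) (u t) (m + 1) ^ 2 ≤ X * bb lam (m + 1) ^ 2 := by
        have h6 : af φ (MM lam) (u t) (m + 1) ^ 2 ≤ 2 * etaa Cη lam m := by
          have : af φ (MM lam) (u t) (m + 1) ^ 2 ≤ tt φ ψ ρ (MM lam) (EE lam) (u t) (m + 1) / -hf φ φ := by
            have h7 : (fun n t => af φ (MM lam) (u t) n) (m + 1) t ^ 2
              = af φ (MM lam) (u t) (m + 1) ^ 2 := rfl
            rw [h7] at h2
            linarith
          exact this.trans h1
        refine h6.trans ?_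
        unfold etaa
        have h8 : Real.exp (5 / 2 * LL lam (m + 1)) = MM lam (m + 1) ^ 5 := by
          rw [MM_pow]; congr 1; push_cast; ring
        rw [h8, EE_eq]
        have h9 : MM lam (m + 1) ^ 5 * bb lam (m + 1) ^ 4 ≤ K5 * bb lam (m + 1) ^ 2 := by
          have h10 : bb lam (m + 1) ^ 3 ≤ bb lam (m + 1) ^ 2 :=
            pow_le_pow_of_le_one hbn.le (bb_le_one lam _) (by norm_num)
          calc MM lam (m + 1) ^ 5 * bb lam (m + 1) ^ 4
              = (MM lam (m + 1) ^ 5 * bb lam (m + 1)) * bb lam (m + 1) ^ 3 := by ring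
            _ ≤ K5 * bb lam (m + 1) ^ 2 :=
                mul_le_mul (hK5' (m + 1)) h10 (by positivity) hK50
        calc 2 * (2 * Cη * (MM lam (m + 1) ^ 5 * bb lam (m + 1) ^ 4))
            ≤ 2 * (2 * Cη * (K5 * bb lam (m + 1) ^ 2)) :=
              mul_le_mul_of_nonneg_left (mul_le_mul_of_nonneg_left h9 (by positivity)) (by norm_num)
          _ = X * bb lam (m + 1) ^ 2 := by rw [hX]; ring
      have h6 : |af φ (MM lam) (u t) (m + 1)| ≤ Real.sqrt X * bb lam (m + 1) := by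
        refine abs_le_of_sq_le_sq ?_ (by positivity)
        rw [mul_pow, Real.sq_sqrt hX0]
        exact h5
      have h7 : 0 ≤ (R / bb lam N + 3 / 2) * bb lam (m + 1) := by positivity
      calc |af φ (MM lam) (u t) (m + 1)| ≤ Real.sqrt X * bb lam (m + 1) := h6
        _ ≤ _ := by linarith


theorem af_sq_le {M ε : ℕ → ℝ} (P : Prof φ ρ ψ x₁) (S : Scl M ε) {v : V → V}
    (hv : InX (Fam φ ψ ρ M ε) v) (n : ℕ) :
    (M n ^ 2 * af φ M v n) ^ 2 * dir φ φ ≤ dir v v := by
  have hφ := φT P S n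
  have hvT := hv.1
  set a := af φ M v n with ha
  have h1 := dir_eq P S hv n
  have h2 := sc_dir (S.M_pos n) P.φT.diff P.φT.diff
  have hw := hvT.add (hφ.smul (-a))
  have h0 := dir_self_nonneg (v + (-a) • sc (M n) φ)
  rw [dir_add_right hw.contd hvT (hφ.smul (-a)), dir_smul_right _ hφ, dir_comm (v + _) v,
    dir_comm (v + _) (sc (M n) φ), dir_add_right hvT.contd hvT (hφ.smul (-a)),
    dir_add_right hφ.contd hvT (hφ.smul (-a)), dir_smul_right _ hφ, dir_smul_right _ hφ,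
    dir_comm (sc (M n) φ) v, h1, h2] at h0
  have e : (M n ^ 2 * a) ^ 2 * dir φ φ = a ^ 2 * (M n ^ 4 * dir φ φ) := by ring
  rw [e]
  nlinarith

theorem sum_cube {M ε : ℕ → ℝ} (S : Scl M ε) (n : ℕ) : ∑ m ∈ range n, M m ^ 3 ≤ M n ^ 3 := by
  induction n with
  | zero => have := S.M_pos 0; simp; positivity
  | succ n ih =>
    rw [sum_range_succ]
    have h0 := S.M_pos n
    have h1 := S.M_pos (n + 1)
    have h2 := S.M_succ n
    have h3 : 8 * M n ≤ M (n + 1) := by
      refine le_of_sq_le_sq ?_ h1.le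
      nlinarith
    have h4 : (8 * M n) ^ 3 ≤ M (n + 1) ^ 3 := pow_le_pow_left₀ (by positivity) h3 3
    have h5 : 0 < M n ^ 3 := by positivity
    nlinarith

/-- the strain of a solution with bounded enstrophy -/
theorem W_ens (G : Good φ ρ ψ x₁ ν T lam R) {u : ℝ → V → V} {t E : ℝ}
    (hX : InX (Fam φ ψ ρ (MM lam) (EE lam)) (u t)) (hE : dir (u t) (u t) ≤ E) (n : ℕ) :
    W (gg (-hf φ φ / ip φ φ) lam) (fun n t => af φ (MM lam) (u t) n) n t
      ≤ (-hf φ φ / ip φ φ * Real.sqrt (E / dir φ φ)) * MM lam n ^ 3 := by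
  have hF := φ_pos G.P
  have hq : 0 < -hf φ φ := by linarith [G.P.q_pos]
  have hA := dir_φ_pos G.P
  have hE0 : 0 ≤ E := (dir_self_nonneg _).trans hE
  set D := Real.sqrt (E / dir φ φ) with hD
  have hD0 : 0 ≤ D := Real.sqrt_nonneg _
  have ha : ∀ m, MM lam m ^ 2 * |af φ (MM lam) (u t) m| ≤ D := by
    intro m
    have h1 := (af_sq_le G.P G.S hX m).trans hE
    have hM := MM_pos lam m
    rw [← abs_of_pos (by positivity : 0 < MM lam m ^ 2), ← abs_mul]
    refine abs_le_of_sq_le_sq ?_ hD0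
    rw [hD, Real.sq_sqrt (by positivity), le_div_iff₀ hA]
    exact h1
  rw [W_eq, mul_assoc]
  refine mul_le_mul_of_nonneg_left ?_ (by positivity)
  unfold Wf
  calc ∑ m ∈ range n, MM lam m ^ 5 * af φ (MM lam) (u t) m
      ≤ ∑ m ∈ range n, D * MM lam m ^ 3 := by
        refine sum_le_sum fun m _ => ?_
        have hM := MM_pos lam m
        have h1 := mul_le_mul_of_nonneg_left (ha m) (by positivity : 0 ≤ MM lam m ^ 3)
        have h2 : MM lam m ^ 5 * af φ (MM lam) (u t) m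
            ≤ MM lam m ^ 5 * |af φ (MM lam) (u t) m| :=
          mul_le_mul_of_nonneg_left (le_abs_self _) (by positivity)
        calc _ ≤ _ := h2
          _ = MM lam m ^ 3 * (MM lam m ^ 2 * |af φ (MM lam) (u t) m|) := by ring
          _ ≤ _ := h1
          _ = _ := by ring
    _ = D * ∑ m ∈ range n, MM lam m ^ 3 := by rw [mul_sum]
    _ ≤ D * MM lam n ^ 3 := mul_le_mul_of_nonneg_left (sum_cube G.S n) hD0

/-- bounded enstrophy gives bounded velocity, with a bound depending only on the enstrophy -/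
theorem vel_of_ens (G : Good φ ρ ψ x₁ ν T lam R) (E : ℝ) :
    ∃ C : ℝ, 0 ≤ C ∧ ∀ T' u, 0 ≤ T' → T' ≤ T →
      GSol ν (Fam φ ψ ρ (MM lam) (EE lam)) (u00 φ ψ ρ lam (dd φ lam)) T' u →
      (∀ t ∈ Icc 0 T', dir (u t) (u t) ≤ E) → ∀ t ∈ Icc 0 T', ∀ x, ‖u t x‖ ≤ C := by
  have hF := φ_pos G.P
  have hq : 0 < -hf φ φ := by linarith [G.P.q_pos]
  have hA := dir_φ_pos G.P
  have hν := G.ν_pos
  set c := -hf φ φ / ip φ φ * Real.sqrt (E / dir φ φ) with hc
  have hdom : ∃ n₀, ∀ n ≥ n₀, c * MM lam n ^ 3 ≤ muu (ν * dir φ φ / ip φ φ) lam n := by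
    have h1 : ∀ᶠ n in atTop, 2 * (c / (ν * dir φ φ / ip φ φ)) ≤ LL lam n :=
      (LL_tendsto G.one).eventually_ge_atTop _
    obtain ⟨n₀, hn₀⟩ := eventually_atTop.mp h1
    refine ⟨n₀, fun n hn => ?_⟩
    have h2 := hn₀ n hn
    have hM := MM_pos lam n
    have h3 : LL lam n / 2 + 1 ≤ MM lam n := Real.add_one_le_exp (LL lam n / 2)
    have h4 : Real.exp (2 * LL lam n) = MM lam n ^ 4 := by
      rw [MM_pow]; congr 1; push_cast; ring
    unfold muu
    rw [h4]
    have h5 : c / (ν * dir φ φ / ip φ φ) ≤ MM lam n := by linarith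
    rw [div_le_iff₀ (by positivity)] at h5
    calc c * MM lam n ^ 3 ≤ (MM lam n * (ν * dir φ φ / ip φ φ)) * MM lam n ^ 3 :=
          mul_le_mul_of_nonneg_right h5 (by positivity)
      _ = _ := by ring
  obtain ⟨n₀, hn₀⟩ := hdom
  obtain ⟨A, hA0, hdec⟩ := decayW G n₀
  have P := G.P
  have S := G.S
  have hPT := PP_TF P S
  obtain ⟨B1, hB1, hB1'⟩ := cs_bound hPT.cont (R := sr ψ) (fun x hx => PP_zero P S x hx)
  obtain ⟨K, hK0, hK⟩ := SS_bound P S G.M1 G.Wt
  refine ⟨A * B1 + A * K, by positivity, fun T' u h0 hT' hu hE t ht x => ?_⟩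
  have hA' := hdec T' u h0 hT' hu (fun n hn t ht =>
    (W_ens G (hu.mem t ht) (hE t ht) n).trans (hn₀ n hn))
  have hα : ∀ n, |af φ (MM lam) (u t) n| ≤ A * bb lam n := by
    intro n
    have h1 : |af φ (MM lam) (u t) n / bb lam n| ≤ A := hA' t ht (n + 1)
    rwa [abs_div, abs_of_pos (bb_pos lam n), div_le_iff₀ (bb_pos lam n)] at h1
  have h1 := eq_Uf P S G.Wt (hu.mem t ht) hα
  have h2 := (hK _ A hA0.le hα x).1
  rw [h1]
  unfold Uf
  refine (norm_add_le _ _).trans (add_le_add ?_ h2)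
  show ‖cf ψ ρ (MM lam) (EE lam) (u t) • PP ψ ρ (MM lam) (EE lam) x‖ ≤ _
  rw [norm_smul, Real.norm_eq_abs]
  exact mul_le_mul (hA' t ht 0) (hB1' x) (norm_nonneg _) hA0.le

/-- the dissipation is continuous in time -/
theorem dir_cont (G : Good φ ρ ψ x₁ ν T lam R) {T' : ℝ} {u : ℝ → V → V} (h0 : 0 ≤ T')
    (hT' : T' ≤ T)
    (hu : GSol ν (Fam φ ψ ρ (MM lam) (EE lam)) (u00 φ ψ ρ lam (dd φ lam)) T' u) :
    ContinuousOn (fun t => dir (u t) (u t)) (Icc 0 T') := by
  obtain ⟨C, hC0, hC⟩ := G.grad_bdd h0 hT' hu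
  have P := G.P
  have S := G.S
  have hν := G.ν_pos
  have hPT := PP_TF P S
  obtain ⟨B, hB0, hB⟩ := cs_bound hPT.contd (R := sr ψ)
    (fun x hx => fderiv_zero_of (PP_zero P S) x hx)
  set K := C + C * B + C * ‖HH‖ with hKdef
  have hK0 : 0 ≤ K := by positivity
  set U : ℕ → ℝ → V → V := fun n t => un φ ψ ρ (MM lam) (EE lam) (u t) n with hU
  have hUT : ∀ n t, TF (U n t) := fun n t => un_TF P S _ _
  have hDg : ∀ n, ∀ t ∈ Icc 0 T', ∀ x, ‖fderiv ℝ (u t - U n t) x‖ ≤ K := by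
    intro n t ht x
    refine (grad_diff P S (hu.mem t ht) (hC t ht).2.1 hB n x).trans ?_
    have := mul_le_mul_of_nonneg_right (hC t ht).2.2 hB0
    linarith
  have hDz : ∀ n, ∀ t ∈ Icc 0 T', ∀ x, rad (MM lam) n < ‖x‖ → fderiv ℝ (u t - U n t) x = 0 := by
    intro n t ht x hx
    exact fderiv_zero_of (diff_small P S (hu.mem t ht) n) x (by linarith [S.rad_pos n])
  -- comparison of the dissipation
  have hdir : ∀ n, ∀ t ∈ Icc 0 T', |dir (u t) (u t) - dir (u t) (U n t)|
      ≤ 3 * (C * K) * vr (rad (MM lam) n) := by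
    intro n t ht
    have hv := (hu.mem t ht).1
    have e1 : dir (u t) (u t) = dir (u t) (U n t) + dir (u t) (u t - U n t) := by
      rw [← dir_add_right hv.contd (hUT n t) (hv.sub (hUT n t))]
      congr 1; abel
    rw [e1, add_sub_cancel_left]
    exact dir_diff_le (hC t ht).2.1 (hDg n t ht) (hDz n t ht)
  -- continuity of the dissipation
  have hDn : ∀ n, ContinuousOn (fun t => dir (u t) (U n t)) (Icc 0 T') := by
    intro n
    have e1 : EqOn (fun t => dir (u t) (U n t))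
        (fun t => cf ψ ρ (MM lam) (EE lam) (u t) ^ 2
            * dir (PP ψ ρ (MM lam) (EE lam)) (PP ψ ρ (MM lam) (EE lam))
          + ∑ m ∈ range n, af φ (MM lam) (u t) m ^ 2 * (MM lam m ^ 4 * dir φ φ)) (Icc 0 T') := by
      intro t ht
      simp only [hU]
      rw [← dir_un P S (hu.mem t ht).1 n, dir_pump P S (hu.mem t ht) (hC t ht).2.1 hB]
      congr 1
      · ring
      · refine sum_congr rfl fun m _ => ?_
        rw [dir_eq P S (hu.mem t ht)]; ring
    refine ContinuousOn.congr ?_ e1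
    have hc : ContinuousOn (fun t => cf ψ ρ (MM lam) (EE lam) (u t)) (Icc 0 T') :=
      fun t ht => (c_deriv hu ht).continuousWithinAt
    have ha : ∀ m, ContinuousOn (fun t => af φ (MM lam) (u t) m) (Icc 0 T') :=
      fun m t ht => (a_deriv hu m ht).continuousWithinAt
    refine ((hc.pow 2).mul_const _).add ?_
    exact continuousOn_finsetSum _ fun m _ => ((ha m).pow 2).mul_const _
  have hvr := vr_rad_tendsto S
  have hlim : TendstoUniformlyOn (fun n t => dir (u t) (U n t)) (fun t => dir (u t) (u t))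
      atTop (Icc 0 T') := by
    rw [Metric.tendstoUniformlyOn_iff]
    intro η hη
    have h1 : Tendsto (fun n => 3 * (C * K) * vr (rad (MM lam) n)) atTop (𝓝 0) := by
      simpa using hvr.const_mul (3 * (C * K))
    filter_upwards [h1.eventually (gt_mem_nhds hη)] with n hn t ht
    rw [Real.dist_eq]
    exact (hdir n t ht).trans_lt hn
  exact hlim.continuousOn (Frequently.of_forall hDn)

/-- if the solution is Lipschitz in time with values in `L²` then the enstrophy is bounded -/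
theorem ens_of_lip (G : Good φ ρ ψ x₁ ν T lam R) {T' : ℝ} {u : ℝ → V → V} (h0 : 0 < T')
    (hT' : T' ≤ T)
    (hu : GSol ν (Fam φ ψ ρ (MM lam) (EE lam)) (u00 φ ψ ρ lam (dd φ lam)) T' u) {L : ℝ}
    (hL0 : 0 ≤ L) (hL : ∀ s ∈ Icc 0 T', ∀ t ∈ Icc 0 T', ip (u t - u s) (u t - u s) ≤ L ^ 2 * (t - s) ^ 2)
    {t : ℝ} (ht : t ∈ Icc 0 T') :
    ν * dir (u t) (u t)
      ≤ L * Real.sqrt (ip (u00 φ ψ ρ lam (dd φ lam)) (u00 φ ψ ρ lam (dd φ lam))) := by
  set u₀ := u00 φ ψ ρ lam (dd φ lam) with hu₀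
  set N := Real.sqrt (ip u₀ u₀) with hN
  have hN0 : 0 ≤ N := Real.sqrt_nonneg _
  have hν := G.ν_pos
  have hen : ∀ s ∈ Icc 0 T', ip (u s) (u s) + 2 * ν * ∫ r in (0)..s, dir (u r) (u r) = ip u₀ u₀ :=
    fun s hs => G.energy h0.le hT' hu hs
  have hI0 : ∀ s ∈ Icc 0 T', 0 ≤ ∫ r in (0)..s, dir (u r) (u r) := fun s hs =>
    intervalIntegral.integral_nonneg hs.1 fun r _ => dir_self_nonneg _
  have hle : ∀ s ∈ Icc 0 T', ip (u s) (u s) ≤ N ^ 2 := by
    intro s hs
    rw [hN, Real.sq_sqrt (ip_self_nonneg _)]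
    have h1 := hen s hs
    have h2 := mul_nonneg (by positivity : 0 ≤ 2 * ν) (hI0 s hs)
    linarith
  have hcont := dir_cont G h0.le hT' hu
  have hint : ∀ a ∈ Icc 0 T', ∀ b ∈ Icc 0 T',
      IntervalIntegrable (fun r => dir (u r) (u r)) volume a b := by
    intro a ha b hb
    refine ContinuousOn.intervalIntegrable (hcont.mono ?_)
    exact uIcc_subset_Icc ha hb
  have key : ∀ a ∈ Icc 0 T', ∀ b ∈ Icc 0 T', a ≤ b →
      ν * ∫ r in a..b, dir (u r) (u r) ≤ L * N * (b - a) := by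
    intro a ha b hb hab
    have h00 : (0 : ℝ) ∈ Icc 0 T' := ⟨le_rfl, h0.le⟩
    have e1 : ∫ r in a..b, dir (u r) (u r)
        = (∫ r in (0)..b, dir (u r) (u r)) - ∫ r in (0)..a, dir (u r) (u r) :=
      (intervalIntegral.integral_interval_sub_left (hint 0 h00 b hb) (hint 0 h00 a ha)).symm
    have ha' := (hu.mem a ha).1
    have hb' := (hu.mem b hb).1
    have hd := hb'.sub ha'
    have e2 : ip (u b) (u b) = ip (u a) (u a) + 2 * ip (u a) (u b - u a)
        + ip (u b - u a) (u b - u a) := by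
      rw [cip_sub ha'.cont hb'.CC ha'.CC, cip_sub hd.cont hb'.CC ha'.CC, ip_comm (u b - u a) (u b),
        ip_comm (u b - u a) (u a), cip_sub hb'.cont hb'.CC ha'.CC, cip_sub ha'.cont hb'.CC ha'.CC,
        ip_comm (u b) (u a)]
      ring
    have h1 := ip_cs ha'.CC hd.CC
    have h2 : ip (u a) (u b - u a) ^ 2 ≤ (N * (L * (b - a))) ^ 2 := by
      refine h1.trans ?_
      have := mul_le_mul (hle a ha) (hL a ha b hb) (ip_self_nonneg _) (sq_nonneg N)
      calc _ ≤ _ := this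
        _ = _ := by ring
    have h3 : 0 ≤ b - a := by linarith
    have h4 := (abs_le_of_sq_le_sq' h2 (by positivity)).1
    have h5 := ip_self_nonneg (u b - u a)
    have h6 := hen a ha
    have h7 := hen b hb
    rw [e1]
    nlinarith
  by_contra hcon
  push Not at hcon
  have hc := hcont t ht
  have hB : L * N / ν < dir (u t) (u t) := by
    rw [div_lt_iff₀ hν]; linarith
  obtain ⟨B', hB1, hB2⟩ := exists_between hB
  have hev : ∀ᶠ s in 𝓝[Icc 0 T'] t, B' < dir (u s) (u s) := hc.eventually (lt_mem_nhds hB2)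
  obtain ⟨r, hr, hball⟩ := Metric.mem_nhdsWithin_iff.mp hev
  obtain ⟨a, b, ha, hb, hab, hsub⟩ : ∃ a b, a ∈ Icc 0 T' ∧ b ∈ Icc 0 T' ∧ a < b ∧
      ∀ s ∈ Icc a b, B' < dir (u s) (u s) := by
    rcases lt_or_ge t T' with h | h
    · refine ⟨t, min T' (t + r / 2), ht, ⟨le_min h0.le (by linarith [ht.1]), min_le_left _ _⟩,
        lt_min h (by linarith), fun s hs => hball ⟨?_, ?_⟩⟩
      · rw [Metric.mem_ball, Real.dist_eq, abs_lt]
        have := hs.2.trans (min_le_right _ _)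
        constructor <;> linarith [hs.1]
      · exact ⟨ht.1.trans hs.1, hs.2.trans (min_le_left _ _)⟩
    · have htT : t = T' := le_antisymm ht.2 h
      refine ⟨max 0 (T' - r / 2), T', ⟨le_max_left _ _, max_le h0.le (by linarith)⟩,
        ⟨h0.le, le_rfl⟩, max_lt h0 (by linarith), fun s hs => hball ⟨?_, ?_⟩⟩
      · rw [Metric.mem_ball, Real.dist_eq, abs_lt]
        have := (le_max_right _ _).trans hs.1
        constructor <;> linarith [hs.2]
      · exact ⟨(le_max_left _ _).trans hs.1, hs.2⟩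
  have h1 := key a ha b hb hab.le
  have h2 : ∫ _ in a..b, B' ≤ ∫ s in a..b, dir (u s) (u s) :=
    intervalIntegral.integral_mono_on hab.le (by simp) (hint a ha b hb) fun s hs => (hsub s hs).le
  rw [intervalIntegral.integral_const, smul_eq_mul] at h2
  have h3 : L * N < ν * B' := by
    rw [div_lt_iff₀ hν] at hB1; linarith
  have h4 : 0 < b - a := by linarith
  nlinarith [mul_le_mul_of_nonneg_left h2 hν.le, mul_lt_mul_of_pos_right h3 h4]

/-- the maximal solution: the enstrophy is unbounded, and the solution is not Lipschitz in time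
with values in `L²` -/
theorem more_blowup (G : Good φ ρ ψ x₁ ν T lam R) {Ts : ℝ} {u : ℝ → V → V} (h0 : 0 < Ts)
    (hTs : Ts ≤ T)
    (hsol : ∀ T', 0 ≤ T' → T' < Ts →
        GSol ν (Fam φ ψ ρ (MM lam) (EE lam)) (u00 φ ψ ρ lam (dd φ lam)) T' u)
    (hb : ∀ C, ∃ t, 0 ≤ t ∧ t < Ts ∧ ∃ x, C < ‖u t x‖) :
    (∀ E, ∃ t, 0 ≤ t ∧ t < Ts ∧ E < dir (u t) (u t)) ∧
    (∀ L, ∃ s t, 0 ≤ s ∧ s < t ∧ t < Ts ∧ L * (t - s) < Real.sqrt (ip (u t - u s) (u t - u s))) := by
  have hE : ∀ E, ∃ t, 0 ≤ t ∧ t < Ts ∧ E < dir (u t) (u t) := by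
    intro E
    by_contra hcon
    push Not at hcon
    obtain ⟨C, hC0, hC⟩ := vel_of_ens G E
    obtain ⟨t, ht0, ht, x, hx⟩ := hb C
    have := hC t u ht0 (ht.le.trans hTs) (hsol t ht0 ht)
      (fun s hs => hcon s hs.1 (lt_of_le_of_lt hs.2 ht)) t ⟨ht0, le_rfl⟩ x
    linarith
  refine ⟨hE, fun L => ?_⟩
  by_contra hcon
  push Not at hcon
  set L' := max L 0 with hL'
  have hL0 : 0 ≤ L' := le_max_right _ _
  have hlip : ∀ s t, 0 ≤ s → s < Ts → 0 ≤ t → t < Ts →
      ip (u t - u s) (u t - u s) ≤ L' ^ 2 * (t - s) ^ 2 := by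
    have h1 : ∀ s t, 0 ≤ s → s < t → t < Ts →
        ip (u t - u s) (u t - u s) ≤ L' ^ 2 * (t - s) ^ 2 := by
      intro s t hs hst ht
      have h2 := hcon s t hs hst ht
      have h3 : Real.sqrt (ip (u t - u s) (u t - u s)) ≤ L' * (t - s) :=
        h2.trans (mul_le_mul_of_nonneg_right (le_max_left _ _) (by linarith))
      have h4 := pow_le_pow_left₀ (Real.sqrt_nonneg _) h3 2
      rw [Real.sq_sqrt (ip_self_nonneg _)] at h4
      calc _ ≤ _ := h4
        _ = _ := by ring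
    intro s t hs hsT ht htT
    rcases lt_trichotomy s t with h | h | h
    · exact h1 s t hs h htT
    · subst h
      simp only [sub_self]
      unfold ip; simp
    · have h2 := h1 t s ht h hsT
      have e : ip (u t - u s) (u t - u s) = ip (u s - u t) (u s - u t) := by
        have : u t - u s = (-1 : ℝ) • (u s - u t) := by
          rw [neg_one_smul]; abel
        rw [this, ip_smul_left, ip_smul_right]; ring
      rw [e]
      calc _ ≤ _ := h2
        _ = _ := by ring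
  have hν := G.ν_pos
  obtain ⟨t, ht0, ht, hEt⟩ := hE (L' * Real.sqrt (ip (u00 φ ψ ρ lam (dd φ lam))
    (u00 φ ψ ρ lam (dd φ lam))) / ν)
  set T' := (t + Ts) / 2 with hT'
  have h1 : T' < Ts := by rw [hT']; linarith
  have h2 : t ≤ T' := by rw [hT']; linarith
  have h3 : 0 < T' := by rw [hT']; linarith
  have h4 := ens_of_lip G h3 (h1.le.trans hTs) (hsol T' h3.le h1) hL0
    (fun s hs t ht => hlip s t hs.1 (lt_of_le_of_lt hs.2 h1) ht.1 (lt_of_le_of_lt ht.2 h1))
    ⟨ht0, h2⟩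
  rw [div_lt_iff₀ hν] at hEt
  linarith

end

end Pool.Agent.H280R3.D5
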