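import Mathlib
import Pool.Agent.H280R3.D5.Dom
import Pool.Agent.H280R3.D5.Fin

/-! Finite-time blow-up for the Galerkin system with Dirichlet conditions. -/

set_option autoImplicit false

open Set MeasureTheory Filter Topology Finset
open scoped RealInnerProductSpace ContDiff

namespace Pool.Agent.H280R3.D5

open Pool.Agent.H402V4

/-- the fields `Φ k` are smooth, compactly supported in `Ω`, divergence-free and pairwise
orthogonal in `L²(Ω)` -/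
structure Admissible (Ω : Set V) (Φ : ℕ → V → V) : Prop where
  smooth : ∀ k, ContDiff ℝ ∞ (Φ k)
  supp : ∀ k, HasCompactSupport (Φ k) ∧ tsupport (Φ k) ⊆ Ω
  dv : ∀ k x, divg (Φ k) x = 0
  orth : ∀ j k, j ≠ k → mass Ω (Φ j) (Φ k) = 0

/-- `u` is, on `[0, Ts)`, the unique maximal solution with datum `u₀`; it is smooth in space,
supported in a fixed compact subset of `Ω`, and satisfies the energy equality -/
structure Maximal (Ω : Set V) (ν : ℝ) (Φ : ℕ → V → V) (u₀ : V → V) (Ts : ℝ) (u : ℝ → V → V) :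
    Prop where
  sol : ∀ T, 0 ≤ T → T < Ts → DSol Ω ν Φ u₀ T u
  uniq : ∀ T v, 0 ≤ T → DSol Ω ν Φ u₀ T v → T < Ts ∧ ∀ t ∈ Icc 0 T, ∀ x ∈ Ω, v t x = u t x
  smooth : ∀ t ∈ Ico 0 Ts, ContDiff ℝ ∞ (u t)
  supp : ∃ K, IsCompact K ∧ K ⊆ Ω ∧ ∀ t ∈ Ico 0 Ts, ∀ x ∉ K, u t x = 0
  energy : ∀ t ∈ Ico 0 Ts,
    mass Ω (u t) (u t) + 2 * ν * ∫ s in (0)..t, diss Ω (u s) (u s) = mass Ω u₀ u₀

/-- As `t → Ts` the velocity and the enstrophy are unbounded, the solution is not Lipschitz in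
time with values in `L²(Ω)`, and the velocity stays bounded away from the point `p` -/
structure Blowup (Ω : Set V) (p : V) (Ts : ℝ) (u : ℝ → V → V) : Prop where
  vel : ∀ C, ∃ t ∈ Ico 0 Ts, ∃ x ∈ Ω, C < ‖u t x‖
  ens : ∀ C, ∃ t ∈ Ico 0 Ts, C < diss Ω (u t) (u t)
  lip : ∀ C, ∃ s ∈ Ico 0 Ts, ∃ t ∈ Ico 0 Ts, s < t ∧
    C * (t - s) < Real.sqrt (mass Ω (u t - u s) (u t - u s))
  away : ∀ δ > 0, ∃ C, ∀ t ∈ Ico 0 Ts, ∀ x ∈ Ω, δ ≤ ‖x - p‖ → ‖u t x‖ ≤ C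

/-- Blow-up near arbitrary data for Galerkin systems with Dirichlet conditions. -/
theorem main (Ω : Set V) (hΩ : IsOpen Ω) (ν : ℝ) (hν : 0 < ν) (w : V → V) (hw : ContDiff ℝ ∞ w)
    (hwc : HasCompactSupport w) (hwΩ : tsupport w ⊆ Ω) (hwd : ∀ x, divg w x = 0)
    (p : V) (hpΩ : p ∈ Ω) (hp : p ∉ tsupport w) (ε : ℝ) (hε : 0 < ε) :
    ∃ (Φ : ℕ → V → V) (u₀ : V → V) (Ts : ℝ) (u : ℝ → V → V),
      Admissible Ω Φ ∧ u₀ ∈ Submodule.span ℝ (range Φ) ∧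
      (∀ x, ε ≤ ‖x - p‖ → u₀ x = w x) ∧ mass Ω (u₀ - w) (u₀ - w) < ε ∧
      0 < Ts ∧ Ts < ε ∧ Maximal Ω ν Φ u₀ Ts u ∧ Blowup Ω p Ts u := by
  obtain ⟨r, hr, hball⟩ := Metric.isOpen_iff.1 hΩ p hpΩ
  set e := min ε (r / 2) with he
  have he0 : 0 < e := lt_min hε (by positivity)
  have heε : e ≤ ε := min_le_left _ _
  have her : e ≤ r / 2 := min_le_right _ _
  obtain ⟨Φ, u₀, Ts, u, h1, h2, h3, h4, h5, h6, h7, h8, h9, h10, h11, h12, h13, h14, h15, h16,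
    h17⟩ := final5 ν hν w hw hwc hwd p hp e he0
  set K : Set V := tsupport w ∪ Metric.closedBall p e with hKdef
  have hK : IsCompact K := hwc.isCompact.union (isCompact_closedBall p e)
  have hKΩ : K ⊆ Ω := by
    refine union_subset hwΩ fun x hx => hball ?_
    rw [Metric.mem_closedBall] at hx
    rw [Metric.mem_ball]
    linarith
  have hKc := hK.isClosed
  have hfar : ∀ x ∉ K, e ≤ ‖x - p‖ ∧ w x = 0 := by
    intro x hx
    rw [hKdef, mem_union, not_or] at hx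
    refine ⟨?_, image_eq_zero_of_notMem_tsupport hx.1⟩
    have := hx.2
    rw [Metric.mem_closedBall, dist_eq_norm, not_le] at this
    exact this.le
  have hΦ : ∀ k, ∀ x ∉ K, Φ k x = 0 := by
    intro k x hx
    obtain ⟨q1, q2⟩ := hfar x hx
    cases k with
    | zero => rw [(h5 x q1).1, q2]
    | succ n => exact (h5 x q1).2 n
  have hΦT : ∀ k, TF (Φ k) := fun k =>
    ⟨(h1 k).1.of_le (by exact_mod_cast le_top), (h1 k).2.1, (h1 k).2.2⟩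
  have hu0 : ∀ x ∉ K, u₀ x = 0 := fun x hx => span_off hΦ h6 hx
  have hoff : ∀ t, 0 ≤ t → t < Ts → ∀ x ∉ K, u t x = 0 := fun t ht0 ht x hx =>
    inX_off hKc hΦT hΦ ((h11 t ht0 ht).mem t ⟨ht0, le_rfl⟩) hx
  have hu0T : TF u₀ := span_TF hΦT h6
  refine ⟨Φ, u₀, Ts, u, ⟨fun k => (h1 k).1, fun k => ⟨(h1 k).2.1, ?_⟩, fun k => (h1 k).2.2,
    fun j k hjk => ?_⟩, h6, fun x hx => h7 x (heε.trans hx), ?_, h9, h10.trans_le heε,
    ⟨fun T hT0 hT => space_to_dom hΩ hK hKΩ hΦT hΦ (h11 T hT0 hT), ?_,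
      fun t ht => (h12 t ht.1 ht.2).1, ⟨K, hK, hKΩ, fun t ht => hoff t ht.1 ht.2⟩, ?_⟩,
    ⟨?_, ?_, ?_, ?_⟩⟩
  · refine (closure_minimal (fun x hx => ?_) hKc).trans hKΩ
    by_contra hxs
    exact hx (hΦ k x hxs)
  · rw [mass_eq hΩ hKΩ (hΦ j)]
    exact h2 j k hjk
  · rw [mass_eq hΩ hKΩ (f := u₀ - w)]
    · exact h8.trans_le heε
    · intro x hx
      rw [Pi.sub_apply, hu0 x hx, (hfar x hx).2, sub_zero]
  · intro T v hT0 hv
    obtain ⟨q1, q2⟩ := h15 T _ hT0 (dom_to_space hΩ hK hKΩ hΦ hu0 hT0 hv)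
    refine ⟨q1, fun t ht x hx => ?_⟩
    have := congrFun (q2 t ht) x
    beta_reduce at this
    rwa [Set.indicator_of_mem hx] at this
  · intro t ht
    have e1 : ∫ s in (0)..t, diss Ω (u s) (u s) = ∫ s in (0)..t, dir (u s) (u s) := by
      refine intervalIntegral.integral_congr fun s hs => ?_
      rw [uIcc_of_le ht.1] at hs
      exact diss_eq hΩ hKc hKΩ (hoff s hs.1 (lt_of_le_of_lt hs.2 ht.2))
    rw [e1, mass_eq hΩ hKΩ (hoff t ht.1 ht.2), mass_eq hΩ hKΩ hu0]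
    exact (h12 t ht.1 ht.2).2
  · intro C
    obtain ⟨t, ht0, ht, x, hx⟩ := h13 (max C 0)
    refine ⟨t, ⟨ht0, ht⟩, x, ?_, (le_max_left _ _).trans_lt hx⟩
    by_contra hxΩ
    rw [hoff t ht0 ht x fun h => hxΩ (hKΩ h), norm_zero] at hx
    exact absurd hx (not_lt.mpr (le_max_right _ _))
  · intro C
    obtain ⟨t, ht0, ht, hE⟩ := h16 C
    exact ⟨t, ⟨ht0, ht⟩, by rwa [diss_eq hΩ hKc hKΩ (hoff t ht0 ht)]⟩
  · intro C
    obtain ⟨s, t, hs0, hst, ht, hL⟩ := h17 C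
    refine ⟨s, ⟨hs0, hst.trans ht⟩, t, ⟨hs0.trans hst.le, ht⟩, hst, ?_⟩
    rw [mass_eq hΩ hKΩ (f := u t - u s)]
    · exact hL
    · intro x hx
      rw [Pi.sub_apply, hoff t (hs0.trans hst.le) ht x hx, hoff s hs0 (hst.trans ht) x hx, sub_zero]
  · intro δ hδ
    obtain ⟨C, hC⟩ := h14 δ hδ
    exact ⟨C, fun t ht x _ hx => hC t ht.1 ht.2 x hx⟩

end Pool.Agent.H280R3.D5
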